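import Pool.Agent.H70.FS.Few

/-!
Rainbow directed cycles from vertexwise out-degree sums: the constant factor `2.3` suffices, and
smaller factors suffice if the labels of every arc beyond the `K`-th are not counted, `K ≤ 8`.
-/

set_option autoImplicit false

namespace Pool.Agent.Results.MP_ecde8e_co.ConstantFactor

open Finset Pool.Agent.H81.RD

/-- Take a loopless digraph on `n ≥ 1` vertices with `t` arc sets `E i`. If at every vertex the
out-degrees over all `E i` sum to at least `2.3 n`, or if for some `K` in `2, 3, 4, 5, 6, 7, 8` at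
every vertex `v` the numbers `min (K, number of the sets E i which contain (v, u))`, summed over
all vertices `u`, are at least `C n`, where `C` is `1, 1.18, 1.25, 1.31, 1.34, 1.37, 1.39`
respectively, then some directed cycle of length at least `2` uses arcs from pairwise distinct
sets `E i`. -/
theorem result :
    ∀ (n t : ℕ) (E : Fin t → Finset (Fin n × Fin n)),
      0 < n →
      (∀ i, ∀ p ∈ E i, p.1 ≠ p.2) →
      ((∀ v : Fin n, 23 * n ≤ 10 * ∑ i, ((E i).filter (fun p => p.1 = v)).card) ∨
        ∃ q ∈ [(2, 100), (3, 118), (4, 125), (5, 131), (6, 134), (7, 137), (8, 139)],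
          ∀ v : Fin n, q.2 * n ≤
            100 * ∑ u : Fin n, min q.1 ((univ : Finset (Fin t)).filter fun i => (v, u) ∈ E i).card) →
      ∃ m : ℕ, ∃ x : Fin (m + 2) → Fin n, ∃ c : Fin (m + 2) → Fin t,
        Function.Injective x ∧ Function.Injective c ∧
        ∀ j : Fin (m + 2), (x j, x (j + 1)) ∈ E (c j) := by
  intro n t E hn hE h
  refine rainbow_of_closed E hE ?_
  have hn2 : 2 ≤ n := by
    by_contra hcon
    have h1 : n = 1 := by omega
    subst h1
    have h0 := lab_self E hE 0
    rcases h with h | ⟨q, hq, h⟩
    · have h2 := h 0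
      rw [← sum_lab, Fin.sum_univ_one, h0] at h2
      omega
    · have h2 := h 0
      rw [Fin.sum_univ_one] at h2
      unfold lab at h0
      rw [h0, Nat.min_zero, mul_one, mul_zero] at h2
      simp only [List.mem_cons, List.not_mem_nil, or_false] at hq
      rcases hq with rfl | rfl | rfl | rfl | rfl | rfl | rfl <;> simp at h2
  rcases h with h | ⟨q, hq, h⟩
  · exact Pool.Agent.H81.CP.exists_closed (s := lab E) (lab_self E hE)
      univ (by rw [card_univ, Fintype.card_fin]; exact hn2) (by
        intro u _
        rw [card_univ, Fintype.card_fin]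
        have h1 := h u
        rw [← sum_lab] at h1
        have h2 : (23 * n : ℝ) ≤ 10 * ∑ y, (lab E u y : ℝ) := by exact_mod_cast h1
        linarith)
  · have h' : ∀ v : Fin n, (q.2 : ℝ) / 100 * n ≤ ∑ y, ((min (lab E v y) q.1 : ℕ) : ℝ) := by
      intro v
      have h1 := h v
      have h2 : ((q.2 : ℝ) * n) ≤ 100 * ∑ y, ((min (lab E v y) q.1 : ℕ) : ℝ) := by
        simp only [min_comm (lab E v _) q.1]
        unfold lab
        exact_mod_cast h1
      linarith
    simp only [List.mem_cons, List.not_mem_nil, or_false] at hq
    rcases hq with rfl | rfl | rfl | rfl | rfl | rfl | rfl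
    · refine Pool.Agent.H70.FS.few_two hn (lab_self E hE) fun v => ?_
      have h1 := h v
      simp only [min_comm 2] at h1
      unfold lab
      omega
    · exact Pool.Agent.H70.FS.few_of_check Pool.Agent.H70.FS.ok3 (by norm_num) hn2
        (lab_self E hE) fun v => le_trans (le_of_eq (by norm_num)) (h' v)
    · exact Pool.Agent.H70.FS.few_of_check Pool.Agent.H70.FS.ok4 (by norm_num) hn2
        (lab_self E hE) fun v => le_trans (le_of_eq (by norm_num)) (h' v)
    · exact Pool.Agent.H70.FS.few_of_check Pool.Agent.H70.FS.ok5 (by norm_num) hn2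
        (lab_self E hE) fun v => le_trans (le_of_eq (by norm_num)) (h' v)
    · exact Pool.Agent.H70.FS.few_of_check Pool.Agent.H70.FS.ok6 (by norm_num) hn2
        (lab_self E hE) fun v => le_trans (le_of_eq (by norm_num)) (h' v)
    · exact Pool.Agent.H70.FS.few_of_check Pool.Agent.H70.FS.ok7 (by norm_num) hn2
        (lab_self E hE) fun v => le_trans (le_of_eq (by norm_num)) (h' v)
    · exact Pool.Agent.H70.FS.few_of_check Pool.Agent.H70.FS.ok8 (by norm_num) hn2
        (lab_self E hE) fun v => le_trans (le_of_eq (by norm_num)) (h' v)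

end Pool.Agent.Results.MP_ecde8e_co.ConstantFactor
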