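import Pool.Agent.H70.SC.Path
import Pool.Agent.H70.CR.ReachK
import Pool.Agent.H81.CP.Close

/-!
The stronger statement on rainbow reach sets, up to the constant factor `3.1`, and up to smaller
constant factors if the labels of every arc beyond the `K`-th are not counted, `K ≤ 8`.
-/

set_option autoImplicit false

namespace Pool.Agent.Results.MP_ecde8e_co.ReachFactor

open Finset Pool.Agent.H81.RD Pool.Agent.H70.SC

/-- Take a loopless digraph on `n ≥ 1` vertices with `t` arc sets `E i`. Suppose that at every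
vertex the out-degrees over all `E i` sum to at least `k`, and let `C = 3.1`; or suppose that for
some `K` in `2, 3, 4, 5, 6, 7, 8` at every vertex `v` the numbers `min (K, number of the sets E i
which contain (v, u))`, summed over all vertices `u`, are at least `k`, and let
`C = 1.5, 1.79, 1.96, 2.08, 2.16, 2.22, 2.27` respectively. Then some directed cycle of length at
least `2` uses arcs from pairwise distinct sets `E i`, or every vertex `v` reaches at least `k / C`
vertices `w ≠ v` by directed paths with distinct vertices which use arcs from pairwise distinct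
sets `E i`. -/
theorem result :
    ∀ (n t : ℕ) (E : Fin t → Finset (Fin n × Fin n)),
      0 < n →
      (∀ i, ∀ p ∈ E i, p.1 ≠ p.2) →
      ∀ k C : ℕ,
      ((C = 310 ∧ ∀ v : Fin n, k ≤ ∑ i, ((E i).filter (fun p => p.1 = v)).card) ∨
        ∃ K : ℕ,
          (K, C) ∈ [(2, 150), (3, 179), (4, 196), (5, 208), (6, 216), (7, 222), (8, 227)] ∧
          ∀ v : Fin n, k ≤
            ∑ u : Fin n, min K ((univ : Finset (Fin t)).filter fun i => (v, u) ∈ E i).card) →
      (∃ m : ℕ, ∃ x : Fin (m + 2) → Fin n, ∃ c : Fin (m + 2) → Fin t,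
        Function.Injective x ∧ Function.Injective c ∧
        ∀ j : Fin (m + 2), (x j, x (j + 1)) ∈ E (c j)) ∨
      (∀ v : Fin n, ∃ R : Finset (Fin n),
        (∀ w ∈ R, w ≠ v ∧ ∃ m : ℕ, ∃ x : Fin (m + 1) → Fin n, ∃ c : Fin m → Fin t,
          Function.Injective x ∧ Function.Injective c ∧ x 0 = v ∧ x (Fin.last m) = w ∧
          ∀ j : Fin m, (x j.castSucc, x j.succ) ∈ E (c j)) ∧
        100 * k ≤ C * R.card) := by
  intro n t E _ hE k C hk
  suffices h : (∃ (v : Fin n) (N : ℕ → ℕ) (L : ℕ), 0 < L ∧ W (lab E) v N L v ∧ ∀ T : ℕ, N T ≤ T) ∨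
      ∀ v : Fin n, (k : ℝ) ≤ (C : ℝ) / 100 * (((reach (lab E) v).card : ℝ) - 1) by
    rcases h with h | h
    · obtain ⟨v, N, L, hL, hW, hN⟩ := h
      exact Or.inl (rainbow_of_closed E hE ⟨v, N, L, hL, hW, hN⟩)
    · refine Or.inr fun v => ⟨(reach (lab E) v).erase v, fun w hw => ?_, ?_⟩
      · rw [mem_erase] at hw
        exact ⟨hw.1, rainbow_path E (mem_reach.mp hw.2)⟩
      · rw [card_erase_of_mem (self_mem_reach _ v)]
        have h1 : 1 ≤ (reach (lab E) v).card := card_pos.mpr ⟨v, self_mem_reach _ v⟩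
        have h2 : 100 * (k : ℝ) ≤ C * (((reach (lab E) v).card - 1 : ℕ) : ℝ) := by
          rw [Nat.cast_sub h1, Nat.cast_one]
          have := h v
          linarith
        exact_mod_cast h2
  rcases hk with ⟨rfl, hk⟩ | ⟨K, hK, hk⟩
  · have hnum : (23 / 10 : ℝ) ^ 2 < (31 / 10 - 23 / 10) * (Real.exp (23 / 10) - 1 - 23 / 10) := by
      have h1 := Real.exp_one_gt_d9
      have h2 := Real.sum_le_exp_of_nonneg (by norm_num : (0 : ℝ) ≤ 3 / 10) 6
      have h3 : (1.3498 : ℝ) ≤ ∑ i ∈ range 6, (3 / 10 : ℝ) ^ i / (i.factorial : ℝ) := by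
        simp only [sum_range_succ, sum_range_zero, Nat.factorial]
        norm_num
      have h4 : (1.3498 : ℝ) ≤ Real.exp (3 / 10) := h3.trans h2
      have h5 : Real.exp (23 / 10) = Real.exp 1 * Real.exp 1 * Real.exp (3 / 10) := by
        rw [← Real.exp_add, ← Real.exp_add]
        norm_num
      have h6 : (7.38905 : ℝ) ≤ Real.exp 1 * Real.exp 1 := by nlinarith
      have h7 : (9.973 : ℝ) ≤ Real.exp (23 / 10) := by
        rw [h5]
        nlinarith [Real.exp_pos (3 / 10)]
      norm_num at h7 ⊢
      linarith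
    have h := Pool.Agent.H70.CR.closed_or_reach (s := lab E) (lab_self E hE) (c := 23 / 10)
      (lam := 31 / 10) (m := k) (by norm_num) (by norm_num) hnum
      (fun B h1 h2 => Pool.Agent.H81.CP.exists_closed (lab_self E hE) B h1 h2) (by
      intro u
      have h1 := hk u
      rw [← sum_lab] at h1
      exact_mod_cast h1)
    norm_num at h ⊢
    exact h
  · have hm : ∀ v : Fin n, (k : ℝ) ≤ ∑ y, ((min (lab E v y) K : ℕ) : ℝ) := by
      intro v
      have h1 := hk v
      simp only [min_comm (lab E v _) K]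
      unfold lab
      exact_mod_cast h1
    simp only [List.mem_cons, List.not_mem_nil, or_false, Prod.mk.injEq] at hK
    rcases hK with ⟨rfl, rfl⟩ | ⟨rfl, rfl⟩ | ⟨rfl, rfl⟩ | ⟨rfl, rfl⟩ | ⟨rfl, rfl⟩ | ⟨rfl, rfl⟩ |
      ⟨rfl, rfl⟩
    · have h := Pool.Agent.H70.CR.reach_two (lab_self E hE) hm
      norm_num at h ⊢
      exact h
    · exact Pool.Agent.H70.CR.reach_of_check (k := 1) Pool.Agent.H70.FS.ok3 (by norm_num)
        (lab_self E hE) (by norm_num) (by norm_num) (by norm_num) (by norm_num [sum_range_succ]) hm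
    · exact Pool.Agent.H70.CR.reach_of_check (k := 2) Pool.Agent.H70.FS.ok4 (by norm_num)
        (lab_self E hE) (by norm_num) (by norm_num) (by norm_num) (by norm_num [sum_range_succ]) hm
    · exact Pool.Agent.H70.CR.reach_of_check (k := 3) Pool.Agent.H70.FS.ok5 (by norm_num)
        (lab_self E hE) (by norm_num) (by norm_num) (by norm_num) (by norm_num [sum_range_succ]) hm
    · exact Pool.Agent.H70.CR.reach_of_check (k := 4) Pool.Agent.H70.FS.ok6 (by norm_num)
        (lab_self E hE) (by norm_num) (by norm_num) (by norm_num) (by norm_num [sum_range_succ]) hm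
    · exact Pool.Agent.H70.CR.reach_of_check (k := 5) Pool.Agent.H70.FS.ok7 (by norm_num)
        (lab_self E hE) (by norm_num) (by norm_num) (by norm_num) (by norm_num [sum_range_succ]) hm
    · exact Pool.Agent.H70.CR.reach_of_check (k := 6) Pool.Agent.H70.FS.ok8 (by norm_num)
        (lab_self E hE) (by norm_num) (by norm_num) (by norm_num) (by norm_num [sum_range_succ]) hm

end Pool.Agent.Results.MP_ecde8e_co.ReachFactor
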