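import Pool.Agent.H70.SC.Path
import Pool.Agent.H70.SC.IterS

/-!
Rainbow reach sets: the asymptotically sharp constant `1 - ε` when the label sets are large.
-/

set_option autoImplicit false

namespace Pool.Agent.Results.MP_ecde8e_co.ReachLarge

open Finset Pool.Agent.H81.RD Pool.Agent.H70.SC

/-- The number of labels of the pair `(v, u)`: the number of indices `i` with `(v, u) ∈ E i`. -/
def labels {n t : ℕ} (E : Fin t → Finset (Fin n × Fin n)) (v u : Fin n) : ℕ :=
  ((univ : Finset (Fin t)).filter fun i => (v, u) ∈ E i).card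

/-- For every `0 < ε < 1` there is `C` such that the following holds for every loopless digraph on
`n ≥ 1` vertices with `t` arc sets `E i` and every real `k`. Suppose that for every vertex `v` the
numbers of labels of those arcs leaving `v` which have at least `C` labels sum to at least `k`. Then
there is a rainbow directed cycle, or every vertex `v` reaches at least `(1 - ε) k` vertices `w ≠ v`
by rainbow directed paths. -/
theorem result :
    ∀ ε : ℝ, 0 < ε → ε < 1 → ∃ C : ℕ, ∀ (n t : ℕ) (E : Fin t → Finset (Fin n × Fin n)),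
      0 < n →
      (∀ i, ∀ p ∈ E i, p.1 ≠ p.2) →
      ∀ k : ℝ, (∀ v : Fin n, k ≤
        ∑ u : Fin n, if C ≤ labels E v u then (labels E v u : ℝ) else 0) →
      (∃ m : ℕ, ∃ x : Fin (m + 2) → Fin n, ∃ c : Fin (m + 2) → Fin t,
        Function.Injective x ∧ Function.Injective c ∧
        ∀ j : Fin (m + 2), (x j, x (j + 1)) ∈ E (c j)) ∨
      (∀ v : Fin n, ∃ R : Finset (Fin n),
        (∀ w ∈ R, w ≠ v ∧ ∃ m : ℕ, ∃ x : Fin (m + 1) → Fin n, ∃ c : Fin m → Fin t,
          Function.Injective x ∧ Function.Injective c ∧ x 0 = v ∧ x (Fin.last m) = w ∧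
          ∀ j : Fin m, (x j.castSucc, x j.succ) ∈ E (c j)) ∧
        (1 - ε) * k ≤ (R.card : ℝ)) := by
  intro ε hε hε1
  obtain ⟨C, hC, hP⟩ := QS_one hε
  refine ⟨C, fun n t E _ hE k hk => ?_⟩
  rcases le_or_gt ((1 - ε) * k) 0 with h0 | h0
  · exact Or.inr fun v => ⟨∅, by simp, by simpa using h0⟩
  have hk0 : 0 < k := pos_of_mul_pos_right h0 (by linarith)
  obtain ⟨s, hs⟩ : ∃ s : Fin n → Fin n → ℕ, s = fun v u => if C ≤ lab E v u then lab E v u else 0 :=
    ⟨_, rfl⟩
  have hmono : ∀ u y, 0 < s u y → s u y = lab E u y := by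
    intro u y hpos
    rw [hs] at hpos ⊢
    simp only at hpos ⊢
    split_ifs at hpos ⊢ with h1
    · rfl
    · omega
  rcases hP (Fin n) s univ ((1 - ε) * k) h0 (by
    intro u
    rw [hs]
    simp [lab_self E hE]) (by
    intro u y
    rw [hs]
    simp only
    split_ifs with h1
    · exact Or.inr h1
    · exact Or.inl rfl) (by
    intro u _
    have h1 := hk u
    have h2 : ∑ y, (s u y : ℝ) = ∑ y, if C ≤ labels E u y then (labels E u y : ℝ) else 0 := by
      refine sum_congr rfl fun y _ => ?_
      rw [hs]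
      show ((if C ≤ labels E u y then labels E u y else 0 : ℕ) : ℝ) =
        if C ≤ labels E u y then (labels E u y : ℝ) else 0
      rw [Nat.cast_ite, Nat.cast_zero]
    rw [h2]
    nlinarith [sq_nonneg ε]) with h | h
  · obtain ⟨v, N, L, hL, hW, hN⟩ := h
    refine Or.inl (rainbow_of_closed E hE ⟨v, N, L, hL, hW.mono hmono, fun T => ?_⟩)
    have h1 := hN T
    rw [one_mul] at h1
    exact_mod_cast h1
  · refine Or.inr fun v => ?_
    obtain ⟨R, _, hvR, hcard, hreach⟩ := h v (mem_univ v)
    refine ⟨R.erase v, fun w hw => ?_, ?_⟩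
    · rw [mem_erase] at hw
      obtain ⟨N, L, hW, hN⟩ := hreach w hw.2
      refine ⟨hw.1, rainbow_path E ⟨N, L, hW.mono hmono, fun T => ?_⟩⟩
      have h1 := hN T
      rw [one_mul] at h1
      exact_mod_cast h1
    · rw [card_erase_of_mem hvR, Nat.cast_sub (card_pos.mpr ⟨v, hvR⟩), Nat.cast_one]
      exact hcard

end Pool.Agent.Results.MP_ecde8e_co.ReachLarge
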