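import Pool.Agent.H70.SD.Main

/-!
Rainbow directed cycles from vertexwise out-degree sums: the constant `1 + ε` suffices when the
out-degrees in the single arc sets are small.
-/

set_option autoImplicit false

namespace Pool.Agent.Results.MP_ecde8e_co.SmallDegrees

open Finset Pool.Agent.H70.SD

/-- For every `ε > 0` there is `c > 0` such that the following holds. Take a loopless digraph on
`n ≥ 1` vertices with `t` arc sets `E i`, and natural numbers `H`, `D` such that `n ≤ H` or every arc
lies in at most `H` of the sets `E i`, and `D (1 + log H) ≤ c n`. If at every vertex `v` the numbers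
`min (outdegree of v in E i, D)` sum to at least `(1 + ε) n`, then some directed cycle of length at
least `2` uses arcs from pairwise distinct sets `E i`. -/
theorem result :
    ∀ ε : ℝ, 0 < ε → ∃ c : ℝ, 0 < c ∧
      ∀ (n t H D : ℕ) (E : Fin t → Finset (Fin n × Fin n)),
        0 < n →
        (∀ i, ∀ p ∈ E i, p.1 ≠ p.2) →
        (n ≤ H ∨ ∀ p : Fin n × Fin n, ((univ : Finset (Fin t)).filter fun i => p ∈ E i).card ≤ H) →
        (D : ℝ) * (1 + Real.log H) ≤ c * n →
        (∀ v : Fin n, (1 + ε) * n ≤
          ∑ i, (((min ((E i).filter fun p => p.1 = v).card D : ℕ)) : ℝ)) →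
        ∃ m : ℕ, ∃ x : Fin (m + 2) → Fin n, ∃ c : Fin (m + 2) → Fin t,
          Function.Injective x ∧ Function.Injective c ∧
          ∀ j : Fin (m + 2), (x j, x (j + 1)) ∈ E (c j) := by
  intro ε hε
  obtain ⟨c, hc, h⟩ := main_small (min ε 1) (lt_min hε one_pos) (min_le_right _ _)
  refine ⟨c, hc, fun n t H D E hn hE hH hD hs => h n t H D E hn hE hH hD fun v => ?_⟩
  have h1 := hs v
  have h2 : (0 : ℝ) ≤ n := Nat.cast_nonneg n
  have h3 : min ε 1 ≤ ε := min_le_left _ _
  nlinarith

end Pool.Agent.Results.MP_ecde8e_co.SmallDegrees
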